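import Pool.Agent.P.MP_594717_nt.Fin

/-! All exponents and all powers of the cyclotomic polynomial for which the congruence holds. -/

open Finset Polynomial Pool.Agent.P.MP_594717_nt

namespace Pool.Agent.Results.MP_594717_nt.ExactOrder

theorem result (n m : ℕ) (r : ℤ) (hn : 2 ≤ n) (hmn : Nat.Coprime m n) :
    ∃ s f : ℤ, r + res n m r * m = s * n ∧ 2 * m * f = r * (m - r) - s * (m - s) * n ^ 2 ∧
      (0 < r → r < m → ((n : ℤ) ≡ 1 [ZMOD m] ∨ (n : ℤ) ≡ -1 [ZMOD m]) →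
        2 * m * f = r * (m - r) * (1 - n ^ 2)) ∧
      ∀ (j : ℕ) (g : ℤ), Cong (cyclotomic n ℚ) j (lhs n m r)
          ((-1) ^ ((res n m r : ℤ) + s * (n - 1)) * q ^ g * rhs n m r) ↔
        j = 0 ∨ (j = 1 ∧ (n : ℤ) ∣ g - f) ∨ (g = f ∧ (j ≤ 2 ∨ s = 0 ∨ s = m)) := by
  obtain ⟨N, rfl⟩ : ∃ N, n = N + 1 := ⟨n - 1, by omega⟩
  obtain ⟨s, f, d⟩ := exists_dat (N := N) (by omega) hmn r
  have e : ((N + 1 : ℕ) : ℤ) - 1 = N := by push_cast; ring
  rw [e]
  refine ⟨s, f, d.hs, d.hf, fun h0 h1 h2 => ?_, order (by omega) d⟩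
  have hs := d.hs
  have ha : (res (N + 1) m r : ℤ) ≤ N := by exact_mod_cast d.ha
  have ha0 : (0 : ℤ) ≤ res (N + 1) m r := Int.natCast_nonneg _
  rw [d.hf]
  generalize (res (N + 1) m r : ℤ) = a at hs ha ha0
  rw [Nat.cast_add_one N] at hs h2 ⊢
  have hN : (0 : ℤ) ≤ N := Int.natCast_nonneg _
  have s0 : 0 < s := by
    by_contra hh
    nlinarith [mul_nonneg ha0 (h0.trans h1).le]
  have s1 : s < m := by
    by_contra hh
    nlinarith [mul_le_mul_of_nonneg_right ha (h0.trans h1).le]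
  rcases h2 with h2 | h2
  · obtain ⟨t, ht⟩ := h2.dvd
    have : s - r = 0 := Int.eq_zero_of_abs_lt_dvd (m := m)
      ⟨a + s * t, by linear_combination s * ht - hs⟩ (abs_lt.2 ⟨by omega, by omega⟩)
    rw [show s = r by omega]; ring
  · obtain ⟨t, ht⟩ := h2.dvd
    have : s + r - m = 0 := Int.eq_zero_of_abs_lt_dvd (m := m)
      ⟨-a - s * t - 1, by linear_combination hs - s * ht⟩ (abs_lt.2 ⟨by omega, by omega⟩)
    rw [show s = m - r by omega]; ring

end Pool.Agent.Results.MP_594717_nt.ExactOrder
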