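import Pool.Agent.P.MP_594717_nt.Fin

/-! The congruence to third order, for every modulus `n ≥ 2`. -/

open Finset Polynomial Pool.Agent.P.MP_594717_nt

namespace Pool.Agent.Results.MP_594717_nt.ThirdOrder

theorem result (n m : ℕ) (r : ℤ) (hn : 2 ≤ n) (hmn : Nat.Coprime m n) :
    ∃ s f : ℤ, r + res n m r * m = s * n ∧ 2 * m * f = r * (m - r) - s * (m - s) * n ^ 2 ∧
      Cong (cyclotomic n ℚ) 3
        (lhs n m r - (-1) ^ ((res n m r : ℤ) + s * (n - 1)) * q ^ f * rhs n m r)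
        (s * (m - s) * (1 - q ^ n) ^ 2 * ∑ k ∈ range n,
          w n m r ((-1) ^ ((res n m r : ℤ) + s * (n - 1)) * q ^ f) k * x ^ k) := by
  obtain ⟨N, rfl⟩ : ∃ N, n = N + 1 := ⟨n - 1, by omega⟩
  obtain ⟨s, f, d⟩ := exists_dat (N := N) (by omega) hmn r
  have e : ((N + 1 : ℕ) : ℤ) - 1 = N := by push_cast; ring
  rw [e]
  exact ⟨s, f, d.hs, d.hf, third d⟩

end Pool.Agent.Results.MP_594717_nt.ThirdOrder
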